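import Pool.Agent.Helper74.FP.Goals

set_option autoImplicit false

namespace Pool.Agent.Helper3.FP

open Pool.Agent.Helper52.Wq2 Pool.Agent.Helper61.NW Monoid Monoid.CoprodI
open Pool.Agent.Helper74.FP

universe u

variable {ι : Type} {A B : ι → Type u} [∀ i, Group (A i)] [∀ i, Group (B i)]

/-- Letterwise image. -/
def g (r : ∀ i, A i → B i) (hr : ∀ i a, a ≠ 1 → r i a ≠ 1) (w : Word A) : Word B where
  toList := w.toList.map (fun l => ⟨l.1, r l.1 l.2⟩)
  ne_one := by
    intro l hl
    rw [List.mem_map] at hl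
    obtain ⟨l', hl', rfl⟩ := hl
    exact hr _ _ (w.ne_one l' hl')
  chain_ne := by
    rw [List.isChain_map]
    exact w.chain_ne

lemma g_fstIdx (r : ∀ i, A i → B i) (hr : ∀ i a, a ≠ 1 → r i a ≠ 1) (w : Word A) :
    (g r hr w).fstIdx = w.fstIdx := by
  unfold Word.fstIdx g
  rw [List.head?_map, Option.map_map]
  rfl

lemma g_inj (r : ∀ i, A i → B i) (hr : ∀ i a, a ≠ 1 → r i a ≠ 1)
    (hri : ∀ i, Function.Injective (r i)) : Function.Injective (g r hr) := by
  intro w w' h
  have h1 : w.toList.map (fun l : (Σ i, A i) => (⟨l.1, r l.1 l.2⟩ : Σ i, B i)) =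
      w'.toList.map (fun l : (Σ i, A i) => (⟨l.1, r l.1 l.2⟩ : Σ i, B i)) :=
    congrArg Word.toList h
  have h2 : Function.Injective (fun l : (Σ i, A i) => (⟨l.1, r l.1 l.2⟩ : Σ i, B i)) := by
    rintro ⟨i, a⟩ ⟨j, b⟩ hab
    simp only [Sigma.mk.injEq] at hab
    obtain ⟨rfl, hab⟩ := hab
    have := hri i (eq_of_heq hab)
    rw [this]
  exact Word.ext (List.map_injective_iff.mpr h2 h1)

open Classical in
lemma exists_dec {M : ι → Type u} [∀ i, Group (M i)] (i : ι) (x : CoprodI M) :
    ∃ (a : M i) (t : Word M), t.fstIdx ≠ some i ∧ x = of a * t.prod := by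
  set p := Word.equivPair i (Word.equiv x) with hp
  refine ⟨p.head, p.tail, p.fstIdx_ne, ?_⟩
  rw [← Word.prod_rcons, ← Word.equivPair_symm, hp, Equiv.symm_apply_apply]
  exact (Word.equiv.symm_apply_apply x).symm

open Classical in
lemma prod_inj {M : ι → Type u} [∀ i, Group (M i)] : Function.Injective (Word.prod (M := M)) :=
  fun _ _ h => Word.equiv.symm.injective h

open Classical in
lemma dec_unique {M : ι → Type u} [∀ i, Group (M i)] {i : ι} {a a' : M i} {t t' : Word M}
    (ht : t.fstIdx ≠ some i) (ht' : t'.fstIdx ≠ some i)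
    (h : (of a * t.prod : CoprodI M) = of a' * t'.prod) : a = a' ∧ t = t' := by
  have h1 : Word.rcons (⟨a, t, ht⟩ : Word.Pair M i) = Word.rcons ⟨a', t', ht'⟩ := by
    apply prod_inj
    rw [Word.prod_rcons, Word.prod_rcons]
    exact h
  have h2 := Word.rcons_inj h1
  exact ⟨congrArg Word.Pair.head h2, congrArg Word.Pair.tail h2⟩

/-- The image of an element. -/
noncomputable def F (r : ∀ i, A i → B i) (hr : ∀ i a, a ≠ 1 → r i a ≠ 1) (x : CoprodI A) :
    CoprodI B := by
  classical
  exact (g r hr (Word.equiv x)).prod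

open Classical in
lemma F_prod (r : ∀ i, A i → B i) (hr : ∀ i a, a ≠ 1 → r i a ≠ 1) (w : Word A) :
    F r hr w.prod = (g r hr w).prod := by
  unfold F
  have : Word.equiv w.prod = w := by
    have := Word.equiv.apply_symm_apply w
    exact this
  simp only [this]

open Classical in
lemma F_dec (r : ∀ i, A i → B i) (hr : ∀ i a, a ≠ 1 → r i a ≠ 1) (hr1 : ∀ i, r i 1 = 1)
    {i : ι} (a : A i) (t : Word A) (ht : t.fstIdx ≠ some i) :
    F r hr (of a * t.prod) = of (r i a) * (g r hr t).prod := by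
  by_cases h : a = 1
  · subst h
    rw [hr1, map_one, map_one, one_mul, one_mul, F_prod]
  · rw [← Word.prod_cons i a t h ht, F_prod]
    have ht' : (g r hr t).fstIdx ≠ some i := by rw [g_fstIdx]; exact ht
    rw [← Word.prod_cons i (r i a) (g r hr t) (hr i a h) ht']
    congr 1

open Classical in
lemma F_inj (r : ∀ i, A i → B i) (hr : ∀ i a, a ≠ 1 → r i a ≠ 1)
    (hri : ∀ i, Function.Injective (r i)) : Function.Injective (F r hr) := by
  intro x y h
  unfold F at h
  exact Word.equiv.injective (g_inj r hr hri (prod_inj h))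

lemma conn_image {X Y : Type*} {G : SimpleGraph X} {H : SimpleGraph Y} (φ : X → Y)
    (hφ : ∀ a b, G.Adj a b → H.Adj (φ a) (φ b)) {s : Set X} (hs : Conn G s) :
    Conn H (φ '' s) := by
  refine ⟨hs.1.image φ, ?_⟩
  intro A hA hne hcl
  have h1 : s ⊆ s ∩ φ ⁻¹' A := by
    apply hs.2 _ Set.inter_subset_left
    · obtain ⟨y, hy⟩ := hne
      obtain ⟨x, hx, rfl⟩ := hA hy
      exact ⟨x, hx, hy⟩
    · rintro a ⟨_, ha⟩ b hb hab
      exact ⟨hb, hcl _ ha _ ⟨b, hb, rfl⟩ (hφ _ _ hab)⟩
  rintro _ ⟨x, hx, rfl⟩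
  exact (h1 hx).2

lemma adj_right (T : ∀ i, Set (B i)) (y : CoprodI B) (i : ι) (b b' : B i)
    (h : (cayL (T i)).Adj b b') : (cayL (US T)).Adj (of b * y) (of b' * y) := by
  classical
  unfold cayL at h ⊢
  rw [SimpleGraph.fromRel_adj] at h ⊢
  refine ⟨fun e => h.1 (of_injective i (mul_right_cancel e)), ?_⟩
  have e1 : ∀ c c' : B i, (of c' * y) * (of c * y)⁻¹ = (of (c' * c⁻¹) : CoprodI B) := by
    intro c c'
    rw [map_mul, map_inv]; group
  rcases h.2 with h2 | h2
  · left; exact ⟨i, _, h2, e1 _ _⟩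
  · right; exact ⟨i, _, h2, e1 _ _⟩

theorem f4 : F4Stmt.{u} := by
  intro ι A B _ _ S T V _ _ hV hV1
  classical
  have hr0 : ∀ i, ∃ r : A i → B i, r 1 = 1 ∧ ∀ a, r a ∈ V i a := by
    intro i
    have : ∀ a, ∃ b, b ∈ V i a := fun a => ((hV i).1 a).1
    choose q hq using this
    refine ⟨fun a => if a = 1 then 1 else q a, by simp, ?_⟩
    intro a
    by_cases h : a = 1
    · subst h; simpa using hV1 i
    · simpa [h] using hq a
  choose r hr1 hrV using hr0
  have hri : ∀ i, Function.Injective (r i) := fun i a a' h =>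
    (hV i).2.1 a a' (r i a) (hrV i a) (h ▸ hrV i a')
  have hr : ∀ i a, a ≠ 1 → r i a ≠ 1 := fun i a ha h => ha (hri i (h.trans (hr1 i).symm))
  let P : ∀ i, A i → Word A → Set (CoprodI B) := fun i a t =>
    (fun b : B i => of b * (g r hr t).prod) '' V i a
  let V' : CoprodI A → Set (CoprodI B) := fun x =>
    {y | y = F r hr x ∨ ∃ (i : ι) (a : A i) (t : Word A), t.fstIdx ≠ some i ∧
      x = of a * t.prod ∧ y ∈ P i a t}
  have hPF : ∀ (i : ι) (a : A i) (t : Word A), t.fstIdx ≠ some i →
      F r hr (of a * t.prod) ∈ P i a t := by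
    intro i a t ht
    rw [F_dec r hr hr1 a t ht]
    exact ⟨r i a, hrV i a, rfl⟩
  have hPc : ∀ (i : ι) (a : A i) (t : Word A), Conn (cayL (US T)) (P i a t) := by
    intro i a t
    exact conn_image _ (fun b b' h => adj_right T _ i b b' h) ((hV i).1 a)
  have hFx : ∀ (x : CoprodI A) (i : ι) (a : A i) (t : Word A), t.fstIdx ≠ some i →
      F r hr x ∈ P i a t → x = of a * t.prod := by
    intro x i a t ht hx
    obtain ⟨a', t', ht', rfl⟩ := exists_dec i x
    rw [F_dec r hr hr1 a' t' ht'] at hx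
    obtain ⟨b, hb, hbe⟩ := hx
    have e := dec_unique (by rw [g_fstIdx]; exact ht) (by rw [g_fstIdx]; exact ht') hbe
    have e1 : t = t' := g_inj r hr hri e.2
    have e2 : a = a' := (hV i).2.1 a a' b hb (by rw [e.1]; exact hrV i a')
    rw [e1, e2]
  have hone : ∀ (i : ι) (a : A i) (t : Word A) (y : CoprodI B), t.fstIdx ≠ some i →
      (1 : B i) ∈ V i a → y = of (1 : B i) * (g r hr t).prod →
      y = F r hr (of a * t.prod) := by
    intro i a t y ht h1 hy
    have : a = 1 := (hV i).2.1 a 1 1 h1 (hV1 i)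
    rw [this, hy, map_one, map_one, one_mul, one_mul, F_prod]
  refine ⟨V', ?_, ?_, ?_⟩
  · intro x
    refine ⟨⟨F r hr x, Or.inl rfl⟩, ?_⟩
    intro C hC hne hcl
    have hpart : ∀ (i : ι) (a : A i) (t : Word A), t.fstIdx ≠ some i → x = of a * t.prod →
        (C ∩ P i a t).Nonempty → P i a t ⊆ C := by
      intro i a t ht hx hn
      have hsub : P i a t ⊆ V' x := fun y hy => Or.inr ⟨i, a, t, ht, hx, hy⟩
      have := (hPc i a t).2 (C ∩ P i a t) Set.inter_subset_right hn (by
        rintro c ⟨hc, _⟩ d hd hcd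
        exact ⟨hcl c hc d (hsub hd) hcd, hd⟩)
      exact fun y hy => (this hy).1
    have hF : F r hr x ∈ C := by
      obtain ⟨c, hc⟩ := hne
      rcases hC hc with h | ⟨i, a, t, ht, hx, hy⟩
      · rw [← h]; exact hc
      · apply hpart i a t ht hx ⟨c, hc, hy⟩
        rw [hx]; exact hPF i a t ht
    rintro y (h | ⟨i, a, t, ht, hx, hy⟩)
    · rw [h]; exact hF
    · apply hpart i a t ht hx ⟨F r hr x, hF, ?_⟩ hy
      rw [hx]; exact hPF i a t ht
  · intro x x' y hy hy'
    rcases hy with h | ⟨i, a, t, ht, hx, hy⟩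
    · rcases hy' with h' | ⟨i', a', t', ht', hx', hy'⟩
      · exact F_inj r hr hri (h.symm.trans h')
      · rw [h] at hy'
        rw [hx']; exact hFx x i' a' t' ht' hy'
    · rcases hy' with h' | ⟨i', a', t', ht', hx', hy'⟩
      · rw [h'] at hy
        rw [hx]; exact (hFx x' i a t ht hy).symm
      · by_cases hii : i = i'
        · subst hii
          obtain ⟨b, hb, rfl⟩ := hy
          obtain ⟨b', hb', hbe⟩ := hy'
          have e := dec_unique (by rw [g_fstIdx]; exact ht') (by rw [g_fstIdx]; exact ht) hbe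
          have e1 : t' = t := g_inj r hr hri e.2
          have e2 : a' = a := (hV i).2.1 a' a b' hb' (by rw [e.1]; exact hb)
          rw [hx, hx', e1, e2]
        · have hy2 := hy
          have hy2' := hy'
          obtain ⟨b, hb, hbe⟩ := hy2
          obtain ⟨b', hb', hbe'⟩ := hy2'
          simp only at hbe hbe'
          by_cases hb1 : b = 1
          · subst hb1
            have e := hone i a t y ht hb hbe.symm
            rw [← hx] at e
            rw [e] at hy'
            rw [hx']; exact hFx x i' a' t' ht' hy'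
          · by_cases hb1' : b' = 1
            · subst hb1'
              have e := hone i' a' t' y ht' hb' hbe'.symm
              rw [← hx'] at e
              rw [e] at hy
              rw [hx]; exact (hFx x' i a t ht hy).symm
            · exfalso
              have k : (g r hr t).fstIdx ≠ some i := by rw [g_fstIdx]; exact ht
              have k' : (g r hr t').fstIdx ≠ some i' := by rw [g_fstIdx]; exact ht'
              rw [← Word.prod_cons i b _ hb1 k] at hbe
              rw [← Word.prod_cons i' b' _ hb1' k'] at hbe'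
              have e := prod_inj (hbe.trans hbe'.symm)
              have e2 := congrArg Word.fstIdx e
              rw [Word.fstIdx_cons, Word.fstIdx_cons] at e2
              exact hii (Option.some.inj e2)
  · have key : ∀ (x x' : CoprodI A), x ≠ x' → x' * x⁻¹ ∈ US S →
        ∃ a ∈ V' x, ∃ b ∈ V' x', (cayL (US T)).Adj a b := by
      rintro x x' hne ⟨i, s, hs, hse⟩
      obtain ⟨a, t, ht, rfl⟩ := exists_dec i x
      have hx' : x' = of (s * a) * t.prod := by
        rw [map_mul, mul_assoc, ← hse]; group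
      have hadj : (cayL (S i)).Adj a (s * a) := by
        unfold cayL
        rw [SimpleGraph.fromRel_adj]
        refine ⟨fun e => hne ?_, Or.inl ?_⟩
        · rw [hx', ← e]
        · rw [mul_inv_cancel_right]; exact hs
      obtain ⟨b, hb, b', hb', hbb⟩ := (hV i).2.2 _ _ hadj
      exact ⟨of b * (g r hr t).prod, Or.inr ⟨i, a, t, ht, rfl, b, hb, rfl⟩,
        of b' * (g r hr t).prod, Or.inr ⟨i, s * a, t, ht, hx', b', hb', rfl⟩,
        adj_right T _ i b b' hbb⟩
    intro x x' h
    unfold cayL at h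
    rw [SimpleGraph.fromRel_adj] at h
    rcases h.2 with h2 | h2
    · exact key x x' h.1 h2
    · obtain ⟨a, ha, b, hb, hab⟩ := key x' x h.1.symm h2
      exact ⟨b, hb, a, ha, hab.symm⟩

end Pool.Agent.Helper3.FP
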